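import Pool.Agent.H65.CM4.Targets1

set_option autoImplicit false
set_option linter.unusedVariables false

open MeasureTheory Set Filter NumberField NumberField.InfinitePlace Pool.Agent.H65.CM4
open scoped Real

namespace Pool.Agent.H86.CM4

variable (k : Type) [Field k] [NumberField k] [IsTotallyReal k]

/-- the summable majorant -/
theorem GMA_sum (n : ℕ) : Summable (fun j : ℕ => Real.exp (-(j : ℝ)) * (2 * ((j : ℝ) + 1)) ^ n) := by
  have h := Real.summable_pow_mul_exp_neg_nat_mul n (r := 1) one_pos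
  have h1 := ((summable_nat_add_iff 1).mpr h).mul_left (Real.exp 1 * 2 ^ n)
  refine h1.congr fun j => ?_
  push_cast
  have e : Real.exp (-1 * ((j : ℝ) + 1)) = Real.exp (-(j : ℝ)) * Real.exp (-1) := by
    rw [← Real.exp_add]; ring_nf
  have e1 : Real.exp 1 * Real.exp (-1) = 1 := by rw [← Real.exp_add]; simp
  rw [e, mul_pow]
  calc Real.exp 1 * 2 ^ n * (((j : ℝ) + 1) ^ n * (Real.exp (-(j : ℝ)) * Real.exp (-1)))
      = (Real.exp 1 * Real.exp (-1)) * (Real.exp (-(j : ℝ)) * (2 ^ n * ((j : ℝ) + 1) ^ n)) := by ring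
    _ = Real.exp (-(j : ℝ)) * (2 ^ n * ((j : ℝ) + 1) ^ n) := by rw [e1, one_mul]

/-- the one dimensional weight -/
noncomputable def wt (w : ℝ) (p : Pl k → ℝ) (a : 𝓞 k) : ℝ :=
  Real.exp (-((∑ v : Pl k, (p v - rv v (a : k)) ^ 2) / w ^ 2))

theorem GMA_one (hEMB : T_EMB k) (hBXC : T_BXC k) : ∃ K : ℝ, 1 ≤ K ∧ ∀ (w : ℝ) (p : Pl k → ℝ),
    0 < w → Summable (wt k w p) ∧ ∑' a, wt k w p a ≤ K * (1 + w ^ dg k) := by
  obtain ⟨C, hC, hB⟩ := hBXC
  obtain ⟨hcard, -, -, -, -, -, -, -, -, hN, -, -⟩ := hEMB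
  have hS := GMA_sum (dg k)
  set K₀ := ∑' j : ℕ, Real.exp (-(j : ℝ)) * (2 * ((j : ℝ) + 1)) ^ dg k with hK₀
  have hK₀1 : 1 ≤ K₀ := by
    have h := hS.le_tsum 0 (fun j _ => by positivity)
    refine le_trans ?_ h
    simp only [Nat.cast_zero, neg_zero, Real.exp_zero, zero_add, mul_one, one_mul]
    exact one_le_pow₀ (by norm_num)
  refine ⟨C * K₀, by nlinarith, fun w p hw => ?_⟩
  have hnn : ∀ a, 0 ≤ wt k w p a := fun a => Real.exp_nonneg _
  have key : ∀ F : Finset (𝓞 k), ∑ a ∈ F, wt k w p a ≤ C * K₀ * (1 + w ^ dg k) := by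
    classical
    intro F
    set T : 𝓞 k → ℝ := fun a => Real.sqrt (∑ v : Pl k, (p v - rv v (a : k)) ^ 2) / w with hT
    have hT0 : ∀ a, 0 ≤ T a := fun a => div_nonneg (Real.sqrt_nonneg _) hw.le
    have hTsq : ∀ a, wt k w p a = Real.exp (-(T a ^ 2)) := by
      intro a
      rw [wt, hT]
      simp only
      rw [div_pow, Real.sq_sqrt (Finset.sum_nonneg fun v _ => sq_nonneg _)]
    have hTv : ∀ (a : 𝓞 k) (v : Pl k), |p v - rv v (a : k)| ≤ w * T a := by
      intro a v
      rw [hT]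
      simp only
      rw [mul_div_cancel₀ _ hw.ne']
      apply Real.abs_le_sqrt
      exact Finset.single_le_sum (f := fun v : Pl k => (p v - rv v (a : k)) ^ 2)
        (fun v _ => sq_nonneg _) (Finset.mem_univ v)
    set J : 𝓞 k → ℕ := fun a => ⌊T a⌋₊ with hJ
    have hmaps : ∀ a ∈ F, J a ∈ F.image J := fun a ha => Finset.mem_image_of_mem _ ha
    rw [← Finset.sum_fiberwise_of_maps_to hmaps]
    have hfib : ∀ j : ℕ, ∑ a ∈ F with J a = j, wt k w p a ≤
        C * (1 + w ^ dg k) * (Real.exp (-(j : ℝ)) * (2 * ((j : ℝ) + 1)) ^ dg k) := by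
      intro j
      have hwt : ∀ a ∈ F.filter (fun a => J a = j), wt k w p a ≤ Real.exp (-(j : ℝ)) := by
        intro a ha
        rw [Finset.mem_filter] at ha
        rw [hTsq]
        apply Real.exp_le_exp.mpr
        have h1 : (j : ℝ) ≤ T a := by
          rw [← ha.2]; exact Nat.floor_le (hT0 a)
        have h2 : (j : ℝ) ≤ (j : ℝ) ^ 2 := by
          rcases Nat.eq_zero_or_pos j with h | h
          · rw [h]; simp
          · have : (1 : ℝ) ≤ j := by exact_mod_cast h
            nlinarith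
        have h3 : (j : ℝ) ^ 2 ≤ T a ^ 2 := pow_le_pow_left₀ (by positivity) h1 2
        linarith
      have hcd : ((F.filter (fun a => J a = j)).card : ℝ) ≤
          C * (1 + (2 * ((j : ℝ) + 1) * w) ^ dg k) := by
        have hinj : Function.Injective (fun a : 𝓞 k => (a : k)) := RingOfIntegers.coe_injective
        have h := hB 1 (fun _ => 2 * ((j : ℝ) + 1) * w)
          ((F.filter (fun a => J a = j)).map ⟨fun a : 𝓞 k => (a : k), hinj⟩) one_pos
          (fun v => by positivity) ?_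
        · rw [Finset.card_map] at h
          rw [Finset.prod_const, Finset.card_univ, hcard, div_one] at h
          exact h
        · intro x hx y hy hxy
          rw [Finset.mem_map] at hx hy
          obtain ⟨a, ha, rfl⟩ := hx
          obtain ⟨b, hb, rfl⟩ := hy
          rw [Finset.mem_filter] at ha hb
          simp only [Function.Embedding.coeFn_mk] at hxy ⊢
          have hab : a - b ≠ 0 := by
            intro h
            exact hxy (by rw [sub_eq_zero.mp h])
          have hca : (a : k) - (b : k) = ((a - b : 𝓞 k) : k) := rfl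
          refine ⟨?_, fun v => ?_⟩
          · rw [hca]; exact hN _ hab
          · rw [map_sub]
            have h1 := hTv a v
            have h2 := hTv b v
            have h3 : T a < j + 1 := by rw [← ha.2]; exact Nat.lt_floor_add_one _
            have h4 : T b < j + 1 := by rw [← hb.2]; exact Nat.lt_floor_add_one _
            have e : rv v (a : k) - rv v (b : k) =
              -(p v - rv v (a : k)) + (p v - rv v (b : k)) := by ring
            rw [e]
            refine (abs_add_le _ _).trans ?_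
            rw [abs_neg]
            have h5 : w * T a ≤ w * (j + 1) := mul_le_mul_of_nonneg_left h3.le hw.le
            have h6 : w * T b ≤ w * (j + 1) := mul_le_mul_of_nonneg_left h4.le hw.le
            linarith
      have hone : (1 : ℝ) ≤ (2 * ((j : ℝ) + 1)) ^ dg k := by
        apply one_le_pow₀
        have : (0 : ℝ) ≤ j := Nat.cast_nonneg j
        linarith
      calc ∑ a ∈ F with J a = j, wt k w p a
          ≤ ∑ _a ∈ F with J _a = j, Real.exp (-(j : ℝ)) := Finset.sum_le_sum hwt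
        _ = ((F.filter (fun a => J a = j)).card : ℝ) * Real.exp (-(j : ℝ)) := by
            rw [Finset.sum_const, nsmul_eq_mul]
        _ ≤ (C * (1 + (2 * ((j : ℝ) + 1) * w) ^ dg k)) * Real.exp (-(j : ℝ)) :=
            mul_le_mul_of_nonneg_right hcd (Real.exp_nonneg _)
        _ ≤ (C * ((2 * ((j : ℝ) + 1)) ^ dg k * (1 + w ^ dg k))) * Real.exp (-(j : ℝ)) := by
            apply mul_le_mul_of_nonneg_right _ (Real.exp_nonneg _)
            apply mul_le_mul_of_nonneg_left _ (by linarith)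
            have e : (2 * ((j : ℝ) + 1) * w) ^ dg k = (2 * ((j : ℝ) + 1)) ^ dg k * w ^ dg k :=
              mul_pow _ _ _
            rw [e]
            nlinarith
        _ = C * (1 + w ^ dg k) * (Real.exp (-(j : ℝ)) * (2 * ((j : ℝ) + 1)) ^ dg k) := by ring
    have hw0 : 0 ≤ C * (1 + w ^ dg k) := by positivity
    calc ∑ j ∈ F.image J, ∑ a ∈ F with J a = j, wt k w p a
        ≤ ∑ j ∈ F.image J,
          C * (1 + w ^ dg k) * (Real.exp (-(j : ℝ)) * (2 * ((j : ℝ) + 1)) ^ dg k) :=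
          Finset.sum_le_sum fun j _ => hfib j
      _ = C * (1 + w ^ dg k) *
          ∑ j ∈ F.image J, (Real.exp (-(j : ℝ)) * (2 * ((j : ℝ) + 1)) ^ dg k) := by
          rw [Finset.mul_sum]
      _ ≤ C * (1 + w ^ dg k) * K₀ := by
          apply mul_le_mul_of_nonneg_left _ hw0
          exact hS.sum_le_tsum _ (fun j _ => by positivity)
      _ = C * K₀ * (1 + w ^ dg k) := by ring
  have hsum : Summable (wt k w p) := summable_of_sum_le hnn key
  exact ⟨hsum, hsum.tsum_le_of_sum_le key⟩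

theorem pf_GMA (hEMB : T_EMB k) (hBXC : T_BXC k) : T_GMA k := by
  obtain ⟨K, hK, hone⟩ := GMA_one k hEMB hBXC
  refine ⟨8 * K ^ 3, by positivity, fun W r P hW hr => ?_⟩
  have hW0 : 0 < W := by linarith
  have hr0 : 0 < r := by linarith
  have h1 := hone (W / r) (fun v => (P v).1) (by positivity)
  have h2 := hone W (fun v => (P v).2.1) hW0
  have h3 := hone (W * r) (fun v => (P v).2.2) (by positivity)
  set f₁ := wt k (W / r) (fun v => (P v).1)
  set f₂ := wt k W (fun v => (P v).2.1)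
  set f₃ := wt k (W * r) (fun v => (P v).2.2)
  have n1 : ∀ a, 0 ≤ f₁ a := fun a => Real.exp_nonneg _
  have n2 : ∀ a, 0 ≤ f₂ a := fun a => Real.exp_nonneg _
  have n3 : ∀ a, 0 ≤ f₃ a := fun a => Real.exp_nonneg _
  have s23 : Summable (fun x : 𝓞 k × 𝓞 k => f₂ x.1 * f₃ x.2) :=
    h2.1.mul_of_nonneg h3.1 n2 n3
  have s123 : Summable (fun x : 𝓞 k × 𝓞 k × 𝓞 k => f₁ x.1 * (f₂ x.2.1 * f₃ x.2.2)) :=
    h1.1.mul_of_nonneg s23 n1 (fun x => mul_nonneg (n2 _) (n3 _))
  have hfun : (fun Q : QF k => Real.exp (-(dq r P (rl Q) / W ^ 2))) =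
      fun x : 𝓞 k × 𝓞 k × 𝓞 k => f₁ x.1 * (f₂ x.2.1 * f₃ x.2.2) := by
    funext Q
    change _ = Real.exp _ * (Real.exp _ * Real.exp _)
    rw [← Real.exp_add, ← Real.exp_add]
    congr 1
    rw [dq]
    simp only [rl]
    rw [Finset.sum_add_distrib, Finset.sum_add_distrib]
    have e1 : ∑ v : Pl k, (r * ((P v).1 - rv v (Q.1 : k))) ^ 2 =
        r ^ 2 * ∑ v : Pl k, ((P v).1 - rv v (Q.1 : k)) ^ 2 := by
      rw [Finset.mul_sum]; exact Finset.sum_congr rfl fun v _ => by ring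
    have e3 : ∑ v : Pl k, (((P v).2.2 - rv v (Q.2.2 : k)) / r) ^ 2 =
        (∑ v : Pl k, ((P v).2.2 - rv v (Q.2.2 : k)) ^ 2) / r ^ 2 := by
      rw [Finset.sum_div]; exact Finset.sum_congr rfl fun v _ => by ring
    rw [e1, e3]
    field_simp
    ring
  rw [hfun]
  refine ⟨s123, ?_⟩
  have t23 : ∑' x : 𝓞 k × 𝓞 k, f₂ x.1 * f₃ x.2 = (∑' a, f₂ a) * ∑' a, f₃ a :=
    (h2.1.tsum_mul_tsum h3.1 s23).symm
  have t123 : ∑' x : 𝓞 k × 𝓞 k × 𝓞 k, f₁ x.1 * (f₂ x.2.1 * f₃ x.2.2) =
      (∑' a, f₁ a) * ((∑' a, f₂ a) * ∑' a, f₃ a) := by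
    rw [← t23]
    exact (h1.1.tsum_mul_tsum s23 s123).symm
  rw [t123]
  have g1 : 0 ≤ ∑' a, f₁ a := tsum_nonneg n1
  have g2 : 0 ≤ ∑' a, f₂ a := tsum_nonneg n2
  have g3 : 0 ≤ ∑' a, f₃ a := tsum_nonneg n3
  set n := dg k
  have hWn : 1 ≤ W ^ n := one_le_pow₀ hW
  have hrn : 1 ≤ r ^ n := one_le_pow₀ hr
  have hWrn : 1 ≤ (W * r) ^ n := one_le_pow₀ (by nlinarith)
  have b2 : ∑' a, f₂ a ≤ K * (2 * W ^ n) := h2.2.trans (by nlinarith)
  have b3 : ∑' a, f₃ a ≤ K * (2 * (W * r) ^ n) := h3.2.trans (by nlinarith)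
  have hle1 : r ^ n ≤ (W + r) ^ n := pow_le_pow_left₀ hr0.le (by linarith) n
  have hle2 : W ^ n ≤ (W + r) ^ n := pow_le_pow_left₀ hW0.le (by linarith) n
  calc (∑' a, f₁ a) * ((∑' a, f₂ a) * ∑' a, f₃ a)
      ≤ (K * (1 + (W / r) ^ n)) * ((K * (2 * W ^ n)) * (K * (2 * (W * r) ^ n))) := by
        apply mul_le_mul h1.2 (mul_le_mul b2 b3 g3 (by positivity)) (mul_nonneg g2 g3)
          (by positivity)
    _ = 4 * K ^ 3 * (W ^ n * W ^ n) * (r ^ n + W ^ n) := by
        rw [div_pow, mul_pow]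
        field_simp
        norm_num
    _ ≤ 4 * K ^ 3 * (W ^ n * W ^ n) * (2 * (W + r) ^ n) := by
        apply mul_le_mul_of_nonneg_left _ (by positivity)
        linarith
    _ = 8 * K ^ 3 * (W ^ 2 * (W + r)) ^ n := by
        rw [mul_pow, ← pow_mul, mul_comm 2 n, pow_mul, sq]
        ring

end Pool.Agent.H86.CM4
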