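import Pool.Agent.H65.CM4.Targets1

set_option autoImplicit false
set_option linter.unusedVariables false

open MeasureTheory Set Filter NumberField NumberField.InfinitePlace Pool.Agent.H65.CM4
open scoped Real

namespace Pool.Agent.H86.CM4

variable (k : Type) [Field k] [NumberField k] [IsTotallyReal k]

omit [IsTotallyReal k] in
theorem pf_prime {P : Ideal (𝓞 k)} (hP : P.IsPrime) (h0 : P ≠ ⊥) : pf P = {P} := by
  have hpr : Prime P := Ideal.prime_of_isPrime h0 hP
  have h1 : UniqueFactorizationMonoid.normalizedFactors P = {P} := by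
    rw [UniqueFactorizationMonoid.normalizedFactors_irreducible hpr.irreducible, normalize_eq]
  rw [pf, h1]
  simp

omit [IsTotallyReal k] in
theorem nm_two {P : Ideal (𝓞 k)} (hP : P.IsPrime) (h0 : P ≠ ⊥) : (2 : ℝ) ≤ nm P := by
  have h1 : Ideal.absNorm P ≠ 0 := by
    intro h; exact h0 (Ideal.absNorm_eq_zero_iff.mp h)
  have h2 : Ideal.absNorm P ≠ 1 := by
    intro h; exact hP.ne_top (Ideal.absNorm_eq_one_iff.mp h)
  have h3 : 2 ≤ Ideal.absNorm P := by omega
  unfold nm
  exact_mod_cast h3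

theorem pf_RBP (hEMB : T_EMB k) (hLSP : T_LSP k) (hDVP : T_DVP k) : T_RBP k := by
  classical
  intro P Q hP h0
  have hpf := pf_prime k hP h0
  have h2 := nm_two k hP h0
  obtain ⟨hcard, hL0, hLx, hiff, hall⟩ := hLSP P hP h0
  have hRn : ∀ L : La k, Rn P L Q = if Dv P L Q then nm P - 1 else -1 := by
    intro L
    rw [Rn, hpf, Finset.prod_singleton]
  have hcardR : ((Ls P).card : ℝ) = nm P + 1 := by
    rw [hcard]; push_cast; rfl
  refine ⟨fun hQ => ?_, fun hQ => ?_⟩
  · have h3 : ∀ L ∈ Ls P, |Rn P L Q| ≤ nm P := by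
      intro L _
      rw [hRn]
      split_ifs
      · rw [abs_of_nonneg (by linarith)]; linarith
      · rw [abs_neg, abs_one]; linarith
    calc ∑ L ∈ Ls P, |Rn P L Q| ≤ ∑ _L ∈ Ls P, nm P := Finset.sum_le_sum h3
      _ = (nm P + 1) * nm P := by rw [Finset.sum_const, nsmul_eq_mul, hcardR]
      _ ≤ 3 * nm P ^ 2 := by nlinarith
  · have hc0 : Cop P (1, 0) := by
      unfold Cop
      rw [Ideal.eq_top_iff_one]
      exact Ideal.mem_sup_left (Ideal.subset_span (by simp))
    have hcx : ∀ x : 𝓞 k, Cop P (x, 1) := by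
      intro x
      unfold Cop
      rw [Ideal.eq_top_iff_one]
      exact Ideal.mem_sup_left (Ideal.subset_span (by simp))
    have hd0 : ¬ Dv P (Lw P (1, 0)) Q := by
      rw [hDVP P P (1, 0) Q h0 hP dvd_rfl hc0]
      simpa [val] using hQ
    have hdx : ∀ x : 𝓞 k, Dv P (Lw P (x, 1)) Q → Q.1 * x ^ 2 + Q.2.1 * x + Q.2.2 ∈ P := by
      intro x hx
      rw [hDVP P P (x, 1) Q h0 hP dvd_rfl (hcx x)] at hx
      simpa [val] using hx
    have hno : ((Ls P).filter (fun L => Dv P L Q)).card ≤ 2 := by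
      by_contra hcon
      push Not at hcon
      obtain ⟨a, ha, b, hb, c, hc, hab, hac, hbc⟩ := Finset.two_lt_card.mp hcon
      rw [Finset.mem_filter] at ha hb hc
      have key : ∀ L : La k, L ∈ Ls P ∧ Dv P L Q → ∃ x : 𝓞 k, L = Lw P (x, 1) ∧
          Q.1 * x ^ 2 + Q.2.1 * x + Q.2.2 ∈ P := by
        rintro L ⟨hL, hD⟩
        rcases hall L hL with h | ⟨x, h⟩
        · exact absurd (h ▸ hD) hd0
        · exact ⟨x, h, hdx x (h ▸ hD)⟩
      obtain ⟨x, hx, hfx⟩ := key a ha
      obtain ⟨y, hy, hfy⟩ := key b hb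
      obtain ⟨z, hz, hfz⟩ := key c hc
      have hxy : x - y ∉ P := fun h => hab (by rw [hx, hy]; exact (hiff x y).mpr h)
      have hxz : x - z ∉ P := fun h => hac (by rw [hx, hz]; exact (hiff x z).mpr h)
      have hyz : y - z ∉ P := fun h => hbc (by rw [hy, hz]; exact (hiff y z).mpr h)
      have e1 : (x - y) * (Q.1 * (x + y) + Q.2.1) ∈ P := by
        have h := P.sub_mem hfx hfy
        have e : (x - y) * (Q.1 * (x + y) + Q.2.1) =
          (Q.1 * x ^ 2 + Q.2.1 * x + Q.2.2) - (Q.1 * y ^ 2 + Q.2.1 * y + Q.2.2) := by ring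
        rw [e]; exact h
      have e2 : (x - z) * (Q.1 * (x + z) + Q.2.1) ∈ P := by
        have h := P.sub_mem hfx hfz
        have e : (x - z) * (Q.1 * (x + z) + Q.2.1) =
          (Q.1 * x ^ 2 + Q.2.1 * x + Q.2.2) - (Q.1 * z ^ 2 + Q.2.1 * z + Q.2.2) := by ring
        rw [e]; exact h
      have f1 := (hP.mem_or_mem e1).resolve_left hxy
      have f2 := (hP.mem_or_mem e2).resolve_left hxz
      have f3 : Q.1 * (y - z) ∈ P := by
        have h := P.sub_mem f1 f2
        have e : Q.1 * (y - z) = (Q.1 * (x + y) + Q.2.1) - (Q.1 * (x + z) + Q.2.1) := by ring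
        rw [e]; exact h
      rcases hP.mem_or_mem f3 with h | h
      · exact hQ h
      · exact hyz h
    have h3 : ∀ L ∈ Ls P, |Rn P L Q| ≤ (if Dv P L Q then nm P - 1 else 0) + 1 := by
      intro L _
      rw [hRn]
      split_ifs
      · rw [abs_of_nonneg (by linarith)]; linarith
      · rw [abs_neg, abs_one]; linarith
    have h4 : ∑ L ∈ Ls P, (if Dv P L Q then nm P - 1 else 0) ≤ 2 * (nm P - 1) := by
      rw [← Finset.sum_filter, Finset.sum_const, nsmul_eq_mul]
      have : (((Ls P).filter (fun L => Dv P L Q)).card : ℝ) ≤ 2 := by exact_mod_cast hno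
      exact mul_le_mul_of_nonneg_right this (by linarith)
    calc ∑ L ∈ Ls P, |Rn P L Q| ≤ ∑ L ∈ Ls P, ((if Dv P L Q then nm P - 1 else 0) + 1) :=
          Finset.sum_le_sum h3
      _ = ∑ L ∈ Ls P, (if Dv P L Q then nm P - 1 else 0) + (nm P + 1) := by
          rw [Finset.sum_add_distrib, Finset.sum_const, nsmul_eq_mul, hcardR, mul_one]
      _ ≤ 3 * nm P := by linarith

end Pool.Agent.H86.CM4
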